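import Mathlib
import Pool.Agent.MP_34f9b1_co.Geom

namespace Pool.Agent.Results.MP_34f9b1_co.AreaThree

open Pool.Agent.MP_34f9b1_co MeasureTheory

theorem result :
    ∀ F : Set (EuclideanSpace ℝ (Fin 2)), IsCompact F → Convex ℝ F → (interior F).Nonempty →
      ∀ (n : ℕ) (f : Fin n → Set (EuclideanSpace ℝ (Fin 2))),
        (∀ i, ∃ (r : ℝ) (ψ : EuclideanSpace ℝ (Fin 2) ≃ᵢ EuclideanSpace ℝ (Fin 2)),
            0 < r ∧ f i = (fun x => r • ψ x) '' F) →
        (∑ i, MeasureTheory.volume (f i)) = 1 →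
        ∃ R : ℝ, 0 < R ∧ MeasureTheory.volume ((fun x => R • x) '' F) = 3 ∧
          ∃ φ : Fin n → (EuclideanSpace ℝ (Fin 2) ≃ᵢ EuclideanSpace ℝ (Fin 2)),
            (∀ i, φ i '' f i ⊆ (fun x => R • x) '' F) ∧
            (∀ i j, i ≠ j → Disjoint (interior (φ i '' f i)) (interior (φ j '' f j))) ∧
            ∀ i, ∃ (r : ℝ) (z : EuclideanSpace ℝ (Fin 2)),
              0 < r ∧ φ i '' f i = (fun x => z + r • x) '' F := by
  intro F hF hc hi n f hf hsum
  choose ρ ψ hρ hf using hf
  have hV0 : volume F ≠ 0 := (Measure.measure_pos_of_nonempty_interior _ hi).ne'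
  have hV1 : volume F ≠ ⊤ := hF.measure_lt_top.ne
  obtain ⟨V, hV, eV⟩ : ∃ V : ℝ, 0 < V ∧ volume F = ENNReal.ofReal V :=
    ⟨(volume F).toReal, ENNReal.toReal_pos hV0 hV1, (ENNReal.ofReal_toReal hV1).symm⟩
  have hs : ∑ i, ρ i ^ 2 * V = 1 := by
    have h1 : ∀ i, volume (f i) = ENNReal.ofReal (ρ i ^ 2 * V) := fun i => by
      rw [hf, volume_clone F (hρ i), eV, ENNReal.ofReal_mul (sq_nonneg _)]
    simp only [h1] at hsum
    rw [← ENNReal.ofReal_sum_of_nonneg fun i _ => by positivity] at hsum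
    simpa using hsum
  let R := Real.sqrt (3 / V)
  have hR : 0 < R := Real.sqrt_pos.mpr (by positivity)
  have hR2 : R ^ 2 = 3 / V := Real.sq_sqrt (by positivity)
  obtain ⟨z, hz, hd⟩ := pack_homothets hF hc hi (fun i => ρ i / R) (fun i => div_pos (hρ i) hR) (by
    simp only [div_pow, hR2]
    rw [← Finset.sum_div, ← Finset.sum_mul] at *
    rw [div_div_eq_mul_div, hs])
  have iso : ∀ i, ∃ φ : E ≃ᵢ E, ∀ x, φ (ρ i • ψ i x) = R • z i + ρ i • x := by
    intro i
    have hne := (hρ i).ne'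
    refine ⟨((IsometryEquiv.addRight (-(ρ i • ψ i 0))).trans
      (ψ i).toRealLinearIsometryEquiv.symm.toIsometryEquiv).trans
      (IsometryEquiv.addLeft (R • z i)), fun x => ?_⟩
    have : ρ i • ψ i x + -(ρ i • ψ i 0) = ρ i • (ψ i).toRealLinearIsometryEquiv x := by
      rw [IsometryEquiv.toRealLinearIsometryEquiv_apply, smul_sub, sub_eq_add_neg]
    simp only [IsometryEquiv.trans_apply, IsometryEquiv.addRight_apply, this,
      LinearIsometryEquiv.coe_toIsometryEquiv, map_smul, LinearIsometryEquiv.symm_apply_apply,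
      IsometryEquiv.addLeft_apply]
  choose φ hφ using iso
  have him : ∀ i, φ i '' f i = (fun x => R • z i + ρ i • x) '' F := fun i => by
    rw [hf, Set.image_image]
    simp only [hφ]
  have him' : ∀ i, φ i '' f i =
      Homeomorph.smulOfNeZero R hR.ne' '' ((fun p => z i + (ρ i / R) • p) '' F) := fun i => by
    rw [him, Set.image_image]
    congr 1
    funext x
    change _ = R • (z i + (ρ i / R) • x)
    rw [smul_add, smul_smul, mul_div_cancel₀ _ hR.ne']
  refine ⟨R, hR, ?_, φ, fun i => ?_, fun i j hij => ?_, fun i => ⟨ρ i, _, hρ i, him i⟩⟩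
  · have : volume ((fun x => R • x) '' F) = _ := volume_clone F hR (IsometryEquiv.refl E)
    rw [this, eV, ← ENNReal.ofReal_mul (sq_nonneg _), hR2, div_mul_cancel₀ _ hV.ne']
    simp
  · rw [him']
    exact Set.image_mono (hz i)
  · rw [him', him', ← Homeomorph.image_interior, ← Homeomorph.image_interior]
    exact Set.disjoint_image_of_injective (Homeomorph.injective _) (hd i j hij)

end Pool.Agent.Results.MP_34f9b1_co.AreaThree
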