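import Mathlib
import Pool.Agent.MP_34f9b1_co.Cor.Glue

namespace Pool.Agent.Results.MP_34f9b1_co.Corner

theorem result :
    ∀ F : Set (EuclideanSpace ℝ (Fin 2)), IsCompact F → Convex ℝ F → (interior F).Nonempty →
      (∃ a ∈ F, ∃ b ∈ F, ∃ c ∈ F, ∀ p ∈ F, ∃ x y : ℝ, 0 ≤ x ∧ x ≤ 1 ∧ 0 ≤ y ∧ y ≤ 1 ∧
        p = b + x • (a - b) + y • (c - b)) →
      ∀ (n : ℕ) (f : Fin n → Set (EuclideanSpace ℝ (Fin 2))),
        (∀ i, ∃ (r : ℝ) (ψ : EuclideanSpace ℝ (Fin 2) ≃ᵢ EuclideanSpace ℝ (Fin 2)),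
            0 < r ∧ f i = (fun x => r • ψ x) '' F) →
        (∑ i, MeasureTheory.volume (f i)) = 1 →
        ∃ R : ℝ, 0 < R ∧ MeasureTheory.volume ((fun x => R • x) '' F) = 2 ∧
          ∃ φ : Fin n → (EuclideanSpace ℝ (Fin 2) ≃ᵢ EuclideanSpace ℝ (Fin 2)),
            (∀ i, φ i '' f i ⊆ (fun x => R • x) '' F) ∧
            (∀ i j, i ≠ j → Disjoint (interior (φ i '' f i)) (interior (φ j '' f j))) ∧
            ∀ i, ∃ (t : ℝ) (z : EuclideanSpace ℝ (Fin 2)),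
              t ≠ 0 ∧ φ i '' f i = (fun x => z + t • x) '' F := by
  rintro F hF hc hi ⟨a, ha, b, hb, c, hc', h⟩
  exact Pool.Agent.MP_34f9b1_co.Cor.final hF hi
    (Pool.Agent.MP_34f9b1_co.Cor.good hF hc hi ha hb hc' h)

end Pool.Agent.Results.MP_34f9b1_co.Corner
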